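import Mathlib
import Pool.Agent.Helper683.Lk.Main

/-! The complete graph on nine vertices is strongly intrinsically linked. -/

namespace Pool.Agent.Results.MP_720da9_gt.CompleteNineSIL

open Pool.Agent.Helper683.Lk

/-- Any two disjoint closed curves have exactly one linking number (a check of the definition, not
part of the result). -/
theorem linking_number_exists_unique {x y : R3} (γ : Path x x) (δ : Path y y)
    (h : ∀ t u, γ t ≠ δ u) : ∃! n, IsLinkingNumber γ δ n := by
  obtain ⟨n, hn⟩ := exists_linkingNumber γ δ h
  exact ⟨n, hn, fun m hm => hm.unique hn⟩

/-- Every spatial embedding of the complete graph on nine vertices contains two vertex-disjoint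
cycles whose linking number has absolute value at least two. -/
theorem result : StronglyIntrinsicallyLinked (⊤ : SimpleGraph (Fin 9)) := k9_sil

end Pool.Agent.Results.MP_720da9_gt.CompleteNineSIL
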